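import Pool.Agent.Lib.MP_f51cdd_lc.At.Los

/-!
A first-order theory in finitely many variables that holds in every representable relation
algebra and forces representability of the definable part of each of its atomic models.
-/

namespace Pool.Agent.Results.MP_f51cdd_lc.AAtomDefinable

open Pool.Agent.Lib.MP_f51cdd_lc Pool.Agent.Lib.MP_f51cdd_lc.Seu RelAlg

theorem result (c : ℕ) : ∃ (n : ℕ) (T : Set (Fm n)), (∀ φ ∈ T, φ.free = ∅) ∧
    (∀ (A : Type) [BooleanAlgebra A] [RelAlg A], IsRRA A → ∀ φ ∈ T, Models A φ) ∧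
    ∀ (B : Type) [BooleanAlgebra B] [RelAlg B] [IsAtomic B], (∀ φ ∈ T, Models B φ) →
      ∀ (g : Fin c → B) (C : Type) [BooleanAlgebra C] [RelAlg C] (e : C → B),
        Function.Injective e → (∀ a b, e (a ⊔ b) = e a ⊔ e b) → (∀ a, e aᶜ = (e a)ᶜ) →
        (∀ a b, e (comp a b) = comp (e a) (e b)) → (∀ a, e (conv a) = conv (e a)) →
        e ident = ident → (∀ x, Definable g (e x)) → IsRRA C := by
  obtain ⟨n, hn⟩ := definable_isRRA c
  exact ⟨n, {φ | φ.free = ∅ ∧ ∀ (A : Type) [BooleanAlgebra A] [RelAlg A], IsRRA A → Models A φ},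
    fun φ h => h.1, fun A _ _ hA φ h => h.2 A hA,
    fun B _ _ _ hT => hn B fun φ h1 h2 => hT φ ⟨h1, h2⟩⟩

end Pool.Agent.Results.MP_f51cdd_lc.AAtomDefinable
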