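import Pool.Agent.Lib.MP_f51cdd_lc.H26Rep
import Pool.Agent.Lib.MP_f51cdd_lc.H26EF

/-!
No first-order theory of bounded quantifier depth defines `RRA` over `wRRA`.
-/

namespace Pool.Agent.Results.MP_f51cdd_lc.BoundedDepth

open FirstOrder Pool.Agent.Lib.MP_f51cdd_lc

theorem result (d : ℕ) (T : L.Theory) (hT : ∀ φ ∈ T, depth φ ≤ d) :
    ¬∀ (A : Type) [BooleanAlgebra A] [RelAlg A], IsWRRA A → (IsRRA A ↔ ∀ φ ∈ T, A ⊨ φ) := by
  intro H
  have : Big (Fin (2 * 2 ^ d + 4)) := ⟨fun i j k => by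
    classical
    obtain ⟨l, -, hl⟩ := Finset.exists_mem_notMem_of_card_lt_card
      (s := {i, j, k}) (t := .univ) (Finset.card_le_three.trans_lt (by simp))
    exact ⟨l, by simpa [not_or] using hl⟩, ⟨0⟩⟩
  obtain ⟨N, hN⟩ := not_isRRA (P := Fin (2 * 2 ^ d + 4))
  refine hN ((H _ isWRRA).2 fun φ hφ => ?_)
  have h : Thr (2 * 2 ^ d) (fun _ : ℕ => ()) fun _ : Fin (2 * 2 ^ d + 4) => () := fun _ => by
    rw [Set.preimage_const_of_mem (by simp), Set.preimage_const_of_mem (by simp),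
      min_eq_right (by simp),
      min_eq_right (by rw [Set.encard_univ, ENat.card_eq_coe_fintype_card]; simp)]
  exact (ef _ _ φ (h.mono (by gcongr; exacts [one_le_two, hT φ hφ])) _ _
    fun i => i.elim0).1 ((H (Set (At ℕ (Bool × Fin N))) isRRA.2).1 isRRA.1 φ hφ)

end Pool.Agent.Results.MP_f51cdd_lc.BoundedDepth
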