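import Pool.Agent.Lib.MP_f51cdd_lc.Cr.Rep

/-!
A first-order theory in finitely many variables whose models, among relation algebras, are exactly
the algebras elementarily equivalent to a completely representable one.
-/

namespace Pool.Agent.Results.MP_f51cdd_lc.CompleteRep

open Pool.Agent.Lib.MP_f51cdd_lc Pool.Agent.Lib.MP_f51cdd_lc.Seu

theorem result : ∃ (n : ℕ) (T : Set (Fm n)), (∀ φ ∈ T, φ.free = ∅) ∧
    ∀ (B : Type) [BooleanAlgebra B] [RelAlg B], (∀ φ ∈ T, Models B φ) ↔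
      ∃ (C : Type) (_ : BooleanAlgebra C) (_ : RelAlg C), IsCRA C ∧ ElEq B C := by
  obtain ⟨n, hn⟩ := elCRA
  exact ⟨n, {φ | φ.free = ∅ ∧ ∀ (A : Type) [BooleanAlgebra A] [RelAlg A], IsCRA A → Models A φ},
    fun φ h => h.1, fun B _ _ => ⟨fun hT => hn B fun φ h1 h2 => hT φ ⟨h1, h2⟩,
      fun ⟨C, _, _, h1, h2⟩ φ h => (h2 n φ h.1).2 (h.2 C h1)⟩⟩

end Pool.Agent.Results.MP_f51cdd_lc.CompleteRep
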