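import Pool.Agent.Lib.MP_f51cdd_lc.Seu.All
import Pool.Agent.Lib.MP_f51cdd_lc.Seu.Pos
import Pool.Agent.Lib.MP_f51cdd_lc.Seu.GameDefs

/-!
The conjecture of Egrot and Hirsch on Seurat games.
-/

namespace Pool.Agent.Results.MP_f51cdd_lc.Seurat

open Pool.Agent.Lib.MP_f51cdd_lc.Seu

theorem result : ∃ c : ℕ, ∀ (V W : Type) [Finite V] [Finite W] (E : V → V → Prop)
    (F : W → W → Prop), (¬∃ f : V ≃ W, ∀ x x', F (f x) (f x') ↔ E x x') →
    AllWins (c := c) E F (fun _ => ∅) (fun _ => ∅) := by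
  obtain ⟨c, hc⟩ := th_exists 0
  refine ⟨c, fun V W _ _ E F hn => ?_⟩
  by_contra h0
  have hs : ∀ α β, ¬AllWins (c := c) E F α β → Safe E F α β := fun α β h =>
    not_not.1 fun h' => h (.now h')
  obtain ⟨S, hS⟩ := sPos c V W (fun α β => ¬AllWins E F α β) ⟨_, _, h0⟩ fun α β h =>
    ⟨(hs α β h).1, (hs α β h).2.1, fun i a => not_forall.1 fun h' => h (.left i a h'),
      fun i b => not_forall.1 fun h' => h (.right i b h')⟩
  obtain ⟨f, hf⟩ := hc c V W Prop S (fun x => E (x 0) (x 1)) (fun y => F (y 0) (y 1)) le_rfl (by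
    intro p hp x y hxy
    obtain ⟨α, β, h, hp'⟩ := hS p hp
    obtain ⟨i, hi⟩ := hp' _ (hxy 0)
    obtain ⟨j, hj⟩ := hp' _ (hxy 1)
    simp only [Prod.mk.injEq] at hi hj
    refine propext ⟨fun e => ?_, fun e => ?_⟩
    · obtain ⟨u, u', e', h1, h2⟩ := (hs α β h).2.2.1 _ _ e
      have a1 : u = y 0 := by have := (h1 i).1 (by rw [← hi.1]; rfl); rwa [← hi.2] at this
      have a2 : u' = y 1 := by have := (h2 j).1 (by rw [← hj.1]; rfl); rwa [← hj.2] at this
      rwa [a1, a2] at e'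
    · obtain ⟨u, u', e', h1, h2⟩ := (hs α β h).2.2.2 _ _ e
      have a1 : u = x 0 := by have := (h1 i).2 (by rw [← hi.2]; rfl); rwa [← hi.1] at this
      have a2 : u' = x 1 := by have := (h2 j).2 (by rw [← hj.2]; rfl); rwa [← hj.1] at this
      rwa [a1, a2] at e')
  exact hn ⟨f, fun x x' => by simpa using (hf ![x, x']).to_iff⟩

end Pool.Agent.Results.MP_f51cdd_lc.Seurat
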